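import Pool.Agent.Lib.MP_d64ee4_lc.Main

set_option autoImplicit false

/-!
# G-circulant matrices over finite fields are never Valiant-rigid

Question Q1 of MP_d64ee4_lc asks for a finite field, abelian groups of orders not coprime to the
characteristic and functions on them whose G-circulant matrices form a Valiant-rigid family.
The answer is negative, and no condition on the orders is needed.
The proof gives much more (`Pool.Agent.Lib.MP_d64ee4_lc.decomposition`): for every finite field `F`
and `ε > 0` there are `C` and `δ > 0` such that for every finite abelian group `G` of order `N` and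
every `f : G → F` one can change at most `N ^ ε` entries in every row and column of the
G-circulant matrix of `f` to reduce its rank to at most `C * N ^ (1 - δ)`.
-/

namespace Pool.Agent.Lib.MP_d64ee4_lc.Old.NotValiantRigid

open Filter

/-- `M` is `(r, s)`-rigid: every matrix of the same shape over the same field with rank at most
`r` differs from `M` in at least `s` entries. -/
def IsRigid {I J F : Type} [Fintype I] [Fintype J] [Field F] (M : Matrix I J F) (r s : ℝ) : Prop :=
  ∀ A : Matrix I J F, (A.rank : ℝ) ≤ r →
    s ≤ (({e : I × J | A e.1 e.2 ≠ M e.1 e.2}.ncard : ℕ) : ℝ)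

/-- The family `M k` of square matrices (of size `N`, the cardinality of `I k`) is Valiant-rigid:
it contains matrices of arbitrarily large size, and there is `ε > 0` such that for every constant
`c > 0` every sufficiently large member is `(c N / log log N, N ^ (1 + ε))`-rigid. -/
def IsValiantRigid {F : Type} [Field F] {I : ℕ → Type} [∀ k, Fintype (I k)]
    (M : ∀ k, Matrix (I k) (I k) F) : Prop :=
  (∀ B : ℕ, ∃ k, B ≤ Fintype.card (I k)) ∧
  ∃ ε : ℝ, 0 < ε ∧ ∀ c : ℝ, 0 < c → ∃ N₀ : ℕ, ∀ k, N₀ ≤ Fintype.card (I k) →
    IsRigid (M k)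
      (c * (Fintype.card (I k) : ℝ) / Real.log (Real.log (Fintype.card (I k) : ℝ)))
      ((Fintype.card (I k) : ℝ) ^ (1 + ε))

/-- The G-circulant matrix of `f : G → F`, with entries `f (x - y)`. -/
def gCirculant {G F : Type} [AddCommGroup G] (f : G → F) : Matrix G G F :=
  Matrix.of fun x y => f (x - y)

/-- For every finite field `F`, every sequence of finite abelian groups `G k` whose orders tend to
infinity (in particular when every order has a common factor with the order of the field), and
every choice of functions `f k : G k → F`, the family of G-circulant matrices of the `f k` is not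
Valiant-rigid over `F`. -/
theorem result : ∀ (F : Type) [Field F] [Fintype F] (G : ℕ → Type) [∀ k, AddCommGroup (G k)]
    [∀ k, Fintype (G k)] (f : ∀ k, G k → F),
    Tendsto (fun k => Fintype.card (G k)) atTop atTop →
      ¬ IsValiantRigid (fun k => gCirculant (f k)) := by
  classical
  intro F _ _ G _ _ f hG hV
  obtain ⟨_, ε, hε, hrig⟩ := hV
  obtain ⟨N₀, hN₀⟩ := hrig 1 one_pos
  obtain ⟨C, δ, hC, hδ, hdec⟩ :=
    Pool.Agent.Lib.MP_d64ee4_lc.decomposition F (ε / 2) (by positivity)
  -- eventual inequalities
  have h1 : ∀ᶠ x : ℝ in atTop, C * Real.log x ≤ x ^ δ := by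
    have h2 := (isLittleO_log_rpow_atTop hδ).def (c := 1 / (C + 1)) (by positivity)
    filter_upwards [h2, eventually_ge_atTop (1 : ℝ)] with x hx hx1
    have h3 : 0 ≤ Real.log x := Real.log_nonneg hx1
    have h4 : 0 ≤ x ^ δ := Real.rpow_nonneg (by linarith) _
    rw [Real.norm_of_nonneg h3, Real.norm_of_nonneg h4] at hx
    have h5 : (C + 1) * Real.log x ≤ x ^ δ := by
      have h6 := mul_le_mul_of_nonneg_left hx (by positivity : (0 : ℝ) ≤ C + 1)
      calc (C + 1) * Real.log x ≤ (C + 1) * (1 / (C + 1) * x ^ δ) := h6
        _ = x ^ δ := by field_simp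
    nlinarith
  have hcast : Tendsto (fun k => (Fintype.card (G k) : ℝ)) atTop atTop :=
    tendsto_natCast_atTop_atTop.comp hG
  obtain ⟨k, hk1, hk2, hk3⟩ := ((hcast.eventually h1).and
    ((hG.eventually_ge_atTop N₀).and (hcast.eventually_ge_atTop 16))).exists
  set N : ℝ := (Fintype.card (G k) : ℝ) with hN
  have hN0 : 0 < N := by linarith
  obtain ⟨A, hA1, hA2⟩ := hdec (G k) (f k)
  rw [← hN] at hA1 hA2
  have hlog1 : 1 < Real.log N := by
    rw [Real.lt_log_iff_exp_lt hN0]
    have := Real.exp_one_lt_d9
    linarith
  have hloglog : 0 < Real.log (Real.log N) := Real.log_pos hlog1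
  have hloglog2 : Real.log (Real.log N) ≤ Real.log N :=
    (Real.log_le_sub_one_of_pos (by linarith)).trans (by linarith)
  -- rank condition
  have hrank : (A.rank : ℝ) ≤ 1 * N / Real.log (Real.log N) := by
    refine hA1.trans ?_
    rw [one_mul, le_div_iff₀ hloglog, Real.rpow_sub hN0, Real.rpow_one]
    have hNδ : 0 < N ^ δ := Real.rpow_pos_of_pos hN0 _
    calc C * (N / N ^ δ) * Real.log (Real.log N) ≤ C * (N / N ^ δ) * Real.log N := by
          apply mul_le_mul_of_nonneg_left hloglog2
          positivity
      _ = (C * Real.log N) * (N / N ^ δ) := by ring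
      _ ≤ N ^ δ * (N / N ^ δ) := mul_le_mul_of_nonneg_right hk1 (by positivity)
      _ = N := by field_simp
  have hmany := hN₀ k hk2 A hrank
  rw [← hN] at hmany
  -- number of changed entries
  have hfew : (({e : G k × G k | A e.1 e.2 ≠ gCirculant (f k) e.1 e.2}.ncard : ℕ) : ℝ) ≤
      N * N ^ (ε / 2) := by
    have h7 : {e : G k × G k | A e.1 e.2 ≠ gCirculant (f k) e.1 e.2} =
        ((Finset.univ : Finset (G k)).biUnion (fun x =>
          (Finset.univ.filter fun y => f k (x - y) ≠ A x y).image (fun y => (x, y))) : Set _) := by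
      ext ⟨x, y⟩
      simp only [Set.mem_ofPred_eq, gCirculant, Matrix.of_apply, Finset.coe_biUnion,
        Finset.coe_image, Finset.coe_filter, Finset.mem_univ, true_and, Set.mem_iUnion,
        Set.mem_image, Prod.mk.injEq, Finset.coe_univ, Set.mem_univ]
      constructor
      · intro h
        exact ⟨x, trivial, y, fun h' => h h'.symm, rfl, rfl⟩
      · rintro ⟨a, _, b, hb, rfl, rfl⟩
        exact fun h' => hb h'.symm
    rw [h7, Set.ncard_coe_finset]
    calc (((Finset.univ : Finset (G k)).biUnion (fun x =>
          (Finset.univ.filter fun y => f k (x - y) ≠ A x y).image (fun y => (x, y)))).card : ℝ)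
        ≤ ∑ x : G k, (((Finset.univ.filter fun y => f k (x - y) ≠ A x y).image
            (fun y => (x, y))).card : ℝ) := by
          exact_mod_cast Finset.card_biUnion_le
      _ ≤ ∑ _x : G k, N ^ (ε / 2) := by
          refine Finset.sum_le_sum (fun x _ => ?_)
          have h8 : (((Finset.univ.filter fun y => f k (x - y) ≠ A x y).image
              (fun y => (x, y))).card : ℝ) ≤
              ((Finset.univ.filter fun y => f k (x - y) ≠ A x y).card : ℝ) := by
            exact_mod_cast Finset.card_image_le
          refine h8.trans ?_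
          refine le_of_eq_of_le ?_ (hA2.1 x)
          congr
      _ = N * N ^ (ε / 2) := by
          rw [Finset.sum_const, Finset.card_univ, nsmul_eq_mul]
  have hlt : N * N ^ (ε / 2) < N ^ (1 + ε) := by
    rw [Real.rpow_add hN0, Real.rpow_one]
    apply mul_lt_mul_of_pos_left _ hN0
    exact Real.rpow_lt_rpow_of_exponent_lt (by linarith) (by linarith)
  linarith

end Pool.Agent.Lib.MP_d64ee4_lc.Old.NotValiantRigid
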